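import Pool.Agent.Q293.PamFin

/-!
# Eventual monotonicity in time of the parabolic Anderson model

`Q293.Pam.IsSolution ξ u0 u` says that `u` solves `∂ₜ u = Δ u + ξ u`, `u(0, ·) = u0`, on
`[0, ∞) × ℤ` (with the discrete Laplacian of jump rate one) and is bounded on bounded time
intervals.
-/

set_option autoImplicit false

open MeasureTheory Q293.Pam

namespace Pool.Agent.Results.MP_360c0a_pr.EventuallyIncreasing

/-- Let `ξ` be a random potential on the integers whose values lie almost surely in `[b, C]` for
some `b > 0` (for example independent and identically distributed with positive essential infimum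
and finite essential supremum). For every initial configuration `u0` with values in the natural
numbers, bounded, vanishing on the positive half line and with a particle at the origin, almost
surely the parabolic Anderson model has a solution, and every solution is strictly increasing in
time after a finite time, at every site. -/
theorem result {Ω : Type*} [MeasurableSpace Ω] (P : Measure Ω) (ξ : ℤ → Ω → ℝ) (b C : ℝ)
    (hb : 0 < b) (hξ : ∀ x, ∀ᵐ ω ∂P, b ≤ ξ x ω ∧ ξ x ω ≤ C) (u0 : ℤ → ℕ) (B : ℕ)
    (hB : ∀ z : ℤ, z ≤ 0 → u0 z ≤ B) (hpos : ∀ z : ℤ, 0 < z → u0 z = 0) (h0 : 1 ≤ u0 0) :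
    ∀ᵐ ω ∂P,
      (∃ u : ℝ → ℤ → ℝ, IsSolution (fun z => ξ z ω) (fun z => (u0 z : ℝ)) u) ∧
      ∀ u : ℝ → ℤ → ℝ, IsSolution (fun z => ξ z ω) (fun z => (u0 z : ℝ)) u →
        ∀ x : ℤ, ∃ T : ℝ, 0 ≤ T ∧ StrictMonoOn (fun t => u t x) (Set.Ici T) := by
  filter_upwards [ae_all_iff.2 hξ] with ω hω
  have hBall : ∀ z, ((u0 z : ℕ) : ℝ) ≤ (B : ℝ) := by
    intro z
    rcases le_or_gt z 0 with h | h
    · exact_mod_cast hB z h
    · rw [hpos z h]; simp
  refine ⟨?_, ?_⟩
  · apply exists_solution (C := C) _ _ (B : ℝ)
    · intro z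
      rw [abs_of_nonneg (Nat.cast_nonneg _)]
      exact hBall z
    · intro z
      rw [abs_of_nonneg (hb.le.trans (hω z).1)]
      exact (hω z).2
  · intro u hu x
    exact solution_strict hb (fun z => (hω z).1) (fun z => (hω z).2) _
      (fun z => Nat.cast_nonneg _) (by exact_mod_cast h0)
      (fun z hz => by rw [hpos z hz]; simp) (B : ℝ) hBall u hu x

end Pool.Agent.Results.MP_360c0a_pr.EventuallyIncreasing
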